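import Mathlib
import Pool.Agent.L7h49.OF.Stm

/-!
Null Lagrangians on open sets (part `S_NL` of the project OF), after `Pool.Agent.H248.ID.J01`.
-/

set_option autoImplicit false

open Set Filter Topology MeasureTheory
open scoped ContDiff Manifold

noncomputable section

namespace Pool.Agent.L7h76.OF

open Pool.Agent.L7h49.OF

variable {d : ℕ}

/-- partial derivatives -/
def pe (j : Fin d) (u : E d → ℝ) (x : E d) : ℝ := fderiv ℝ u x (eb j)

lemma pe_contDiff {u : E d → ℝ} (hu : ContDiff ℝ ∞ u) (j : Fin d) : ContDiff ℝ ∞ (pe j u) := by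
  unfold pe
  exact (hu.fderiv_right (m := ∞) (by simp)).clm_apply contDiff_const

lemma pe_supp {u : E d → ℝ} (hu : HasCompactSupport u) (j : Fin d) :
    HasCompactSupport (pe j u) := hu.fderiv_apply ℝ _

lemma two_le_inf : minSmoothness ℝ 2 ≤ (∞ : WithTop ℕ∞) := by
  simp only [minSmoothness_of_isRCLikeNormedField]
  exact WithTop.coe_le_coe.2 le_top

lemma pe_comm {u : E d → ℝ} (hu : ContDiff ℝ ∞ u) (a b : Fin d) (x : E d) :
    pe b (pe a u) x = pe a (pe b u) x := by
  have h1 : ContDiff ℝ ∞ (fderiv ℝ u) := hu.fderiv_right (m := ∞) (by simp)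
  have hd : DifferentiableAt ℝ (fderiv ℝ u) x := h1.differentiable (by simp) x
  have h2 : ∀ a b : Fin d, pe b (pe a u) x = fderiv ℝ (fderiv ℝ u) x (eb b) (eb a) := by
    intro a b
    unfold pe
    have h3 := hd.hasFDerivAt.clm_apply (hasFDerivAt_const (eb a : E d) x)
    rw [h3.fderiv]
    simp
  rw [h2, h2]
  exact (hu.contDiffAt.isSymmSndFDerivAt two_le_inf) _ _

/-- the product of the entries in all rows but `i` -/
def Gs (f : Fin d → E d → ℝ) (i : Fin d) (σ : Equiv.Perm (Fin d)) (x : E d) : ℝ :=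
  ∏ l ∈ Finset.univ.erase i, pe (σ l) (f l) x

lemma Gs_contDiff {f : Fin d → E d → ℝ} (hf : ∀ l, ContDiff ℝ ∞ (f l)) (i : Fin d)
    (σ : Equiv.Perm (Fin d)) : ContDiff ℝ ∞ (Gs f i σ) := by
  unfold Gs
  exact contDiff_prod fun l _ => pe_contDiff (hf l) _

lemma pe_Gs {f : Fin d → E d → ℝ} (hf : ∀ l, ContDiff ℝ ∞ (f l)) (i j : Fin d)
    (σ : Equiv.Perm (Fin d)) (x : E d) :
    pe j (Gs f i σ) x = ∑ l ∈ Finset.univ.erase i,
      (∏ k ∈ (Finset.univ.erase i).erase l, pe (σ k) (f k) x) * pe j (pe (σ l) (f l)) x := by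
  have h1 : HasFDerivAt (Gs f i σ) (∑ l ∈ Finset.univ.erase i,
      (∏ k ∈ (Finset.univ.erase i).erase l, pe (σ k) (f k) x) •
        fderiv ℝ (pe (σ l) (f l)) x) x := by
    have h2 := HasFDerivAt.finsetProd (u := Finset.univ.erase i) (x := x)
      (g := fun l x => pe (σ l) (f l) x)
      (g' := fun l => fderiv ℝ (pe (σ l) (f l)) x)
      (fun l _ => ((pe_contDiff (hf l) (σ l)).differentiable (by simp) x).hasFDerivAt)
    exact h2
  rw [pe, h1.fderiv, _root_.sum_apply]
  apply Finset.sum_congr rfl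
  intro l _
  rfl

lemma alg_zero {f : Fin d → E d → ℝ} (hf : ∀ l, ContDiff ℝ ∞ (f l)) (i : Fin d) (x : E d) :
    ∑ σ : Equiv.Perm (Fin d), ((Equiv.Perm.sign σ : ℤ) : ℝ) * pe (σ i) (Gs f i σ) x = 0 := by
  simp only [pe_Gs hf, Finset.mul_sum]
  rw [Finset.sum_comm]
  apply Finset.sum_eq_zero
  intro l hl
  have hli : l ≠ i := (Finset.mem_erase.mp hl).1
  set F : Equiv.Perm (Fin d) → ℝ := fun σ => ((Equiv.Perm.sign σ : ℤ) : ℝ) *
    ((∏ k ∈ (Finset.univ.erase i).erase l, pe (σ k) (f k) x) *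
        pe (σ i) (pe (σ l) (f l)) x) with hF
  have h1 : ∀ σ, F (σ * Equiv.swap i l) = - F σ := by
    intro σ
    simp only [hF]
    rw [Equiv.Perm.sign_mul, Equiv.Perm.sign_swap (Ne.symm hli)]
    have e1 : (σ * Equiv.swap i l) l = σ i := by simp
    have e2 : (σ * Equiv.swap i l) i = σ l := by simp
    have e3 : ∏ k ∈ (Finset.univ.erase i).erase l, pe ((σ * Equiv.swap i l) k) (f k) x
        = ∏ k ∈ (Finset.univ.erase i).erase l, pe (σ k) (f k) x := by
      apply Finset.prod_congr rfl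
      intro k hk
      rw [Finset.mem_erase, Finset.mem_erase] at hk
      rw [Equiv.Perm.mul_apply, Equiv.swap_apply_of_ne_of_ne hk.2.1 hk.1]
    rw [e1, e2, e3, pe_comm (hf l)]
    push_cast
    ring
  have h2 : ∑ σ, F (σ * Equiv.swap i l) = ∑ σ, F σ :=
    Equiv.sum_comp (Equiv.mulRight (Equiv.swap i l)) F
  have h3 : ∑ σ, F (σ * Equiv.swap i l) = - ∑ σ, F σ := by
    rw [← Finset.sum_neg_distrib]
    exact Finset.sum_congr rfl fun σ _ => h1 σ
  linarith

/-- null Lagrangian, global version -/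
theorem null_glob {f : Fin d → E d → ℝ} (hf : ∀ l, ContDiff ℝ ∞ (f l)) (i : Fin d)
    (hc : HasCompactSupport (f i)) :
    ∫ x, Matrix.det (fun k j : Fin d => fderiv ℝ (f k) x (eb j)) = 0 := by
  set h := f i with hhd
  have hh : ContDiff ℝ ∞ h := hf i
  have hdet : ∀ x, Matrix.det (fun k j : Fin d => fderiv ℝ (f k) x (eb j))
      = ∑ σ : Equiv.Perm (Fin d), ((Equiv.Perm.sign σ : ℤ) : ℝ) * (pe (σ i) h x * Gs f i σ x) := by
    intro x
    have e0 : Matrix.det (fun k j : Fin d => fderiv ℝ (f k) x (eb j))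
        = Matrix.det (Matrix.of fun k j : Fin d => fderiv ℝ (f k) x (eb j)) := rfl
    rw [e0, ← Matrix.det_transpose, Matrix.det_apply']
    apply Finset.sum_congr rfl
    intro σ _
    congr 1
    rw [← Finset.mul_prod_erase Finset.univ _ (Finset.mem_univ i)]
    rfl
  simp only [hdet]
  have hi1 : ∀ (j : Fin d) (σ : Equiv.Perm (Fin d)), Integrable (fun x => pe j h x * Gs f i σ x) := by
    intro j σ
    exact ((pe_contDiff hh j).continuous.mul
      (Gs_contDiff hf i σ).continuous).integrable_of_hasCompactSupport ((pe_supp hc j).mul_right)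
  have hi2 : ∀ (j : Fin d) (σ : Equiv.Perm (Fin d)), Integrable (fun x => h x * pe j (Gs f i σ) x) := by
    intro j σ
    exact (hh.continuous.mul
      (pe_contDiff (Gs_contDiff hf i σ) j).continuous).integrable_of_hasCompactSupport
      (hc.mul_right)
  have hi3 : ∀ (σ : Equiv.Perm (Fin d)), Integrable (fun x => h x * Gs f i σ x) := by
    intro σ
    exact (hh.continuous.mul (Gs_contDiff hf i σ).continuous).integrable_of_hasCompactSupport
      (hc.mul_right)
  have hibp : ∀ (j : Fin d) (σ : Equiv.Perm (Fin d)),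
      ∫ x, pe j h x * Gs f i σ x = - ∫ x, h x * pe j (Gs f i σ) x := by
    intro j σ
    have h1 := integral_mul_fderiv_eq_neg_fderiv_mul_of_integrable (μ := (volume : Measure (E d)))
      (v := (eb j : E d)) (hi1 j σ) (hi2 j σ) (hi3 σ)
      (fun x _ => hh.differentiable (by simp) x)
      (fun x _ => (Gs_contDiff hf i σ).differentiable (by simp) x)
    have h2 : ∫ x, h x * pe j (Gs f i σ) x = - ∫ x, pe j h x * Gs f i σ x := h1
    rw [h2, neg_neg]
  rw [integral_finsetSum]
  · calc ∑ σ : Equiv.Perm (Fin d), ∫ x, ((Equiv.Perm.sign σ : ℤ) : ℝ) * (pe (σ i) h x * Gs f i σ x)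
        = ∑ σ : Equiv.Perm (Fin d), - ∫ x, ((Equiv.Perm.sign σ : ℤ) : ℝ) * (h x * pe (σ i) (Gs f i σ) x) := by
          apply Finset.sum_congr rfl
          intro σ _
          rw [integral_const_mul, integral_const_mul, hibp]
          ring
      _ = - ∫ x, ∑ σ : Equiv.Perm (Fin d), ((Equiv.Perm.sign σ : ℤ) : ℝ) * (h x * pe (σ i) (Gs f i σ) x) := by
          rw [integral_finsetSum, Finset.sum_neg_distrib]
          intro σ _
          exact (hi2 _ σ).const_mul _
      _ = 0 := by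
          rw [neg_eq_zero]
          have h3 : ∀ x, ∑ σ : Equiv.Perm (Fin d), ((Equiv.Perm.sign σ : ℤ) : ℝ) *
              (h x * pe (σ i) (Gs f i σ) x) = 0 := by
            intro x
            have h4 := alg_zero hf i x
            calc ∑ σ : Equiv.Perm (Fin d), ((Equiv.Perm.sign σ : ℤ) : ℝ) * (h x * pe (σ i) (Gs f i σ) x)
                = h x * ∑ σ : Equiv.Perm (Fin d), ((Equiv.Perm.sign σ : ℤ) : ℝ) * pe (σ i) (Gs f i σ) x := by
                  rw [Finset.mul_sum]
                  exact Finset.sum_congr rfl fun σ _ => by ring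
              _ = 0 := by rw [h4, mul_zero]
          simp only [h3]
          simp
  · intro σ _
    exact (hi1 _ σ).const_mul _

/-! ### open sets -/

/-- extension of smooth functions from a neighbourhood of a compact set -/
lemma glob {F : Type} [NormedAddCommGroup F] [NormedSpace ℝ F] {U : Set (E d)} (hU : IsOpen U)
    {f : E d → F} (hf : ContDiffOn ℝ ∞ f U) {K : Set (E d)} (hK : IsClosed K) (hKU : K ⊆ U) :
    ∃ g : E d → F, ContDiff ℝ ∞ g ∧ ∀ x ∈ K, g =ᶠ[𝓝 x] f := by
  obtain ⟨χ, h0, h1, -⟩ := exists_contMDiffMap_zero_one_nhds_of_isClosed (n := ⊤) 𝓘(ℝ, E d)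
    (s := Uᶜ) (t := K) hU.isClosed_compl hK (disjoint_compl_left_iff_subset.2 hKU)
  have hχ : ContDiff ℝ ∞ (χ : E d → ℝ) := χ.contMDiff.contDiff
  refine ⟨fun x => χ x • f x, ?_, fun x hx => ?_⟩
  · rw [contDiff_iff_contDiffAt]
    intro x
    by_cases hx : x ∈ U
    · exact hχ.contDiffAt.smul (hf.contDiffAt (hU.mem_nhds hx))
    · have h2 : ∀ᶠ y in 𝓝 x, χ y = 0 := h0.filter_mono (nhds_le_nhdsSet hx)
      refine (contDiffAt_const (c := (0 : F))).congr_of_eventuallyEq ?_
      filter_upwards [h2] with y hy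
      rw [hy, zero_smul]
  · have h2 : ∀ᶠ y in 𝓝 x, χ y = 1 := h1.filter_mono (nhds_le_nhdsSet hx)
    filter_upwards [h2] with y hy
    rw [hy, one_smul]

lemma glob_supp {F : Type} [NormedAddCommGroup F] [NormedSpace ℝ F] {U : Set (E d)}
    (hU : IsOpen U) {f : E d → F} (hf : ContDiffOn ℝ ∞ f U) (hs : tsupport f ⊆ U) :
    ContDiff ℝ ∞ f := by
  rw [contDiff_iff_contDiffAt]
  intro x
  by_cases hx : x ∈ tsupport f
  · exact hf.contDiffAt (hU.mem_nhds (hs hx))
  · refine (contDiffAt_const (c := (0 : F))).congr_of_eventuallyEq ?_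
    exact notMem_tsupport_iff_eventuallyEq.mp hx

theorem st_NL : S_NL := by
  intro d U a i hU ha hc hs
  choose g hg1 hg2 using fun j => glob hU (ha j) (isClosed_tsupport (a i)) hs
  classical
  set f : Fin d → E d → ℝ := fun j => if j = i then a i else g j with hf
  have hfi : f i = a i := by rw [hf]; simp
  have hfs : ∀ l, ContDiff ℝ ∞ (f l) := by
    intro l
    by_cases h : l = i
    · rw [h, hfi]
      exact glob_supp hU (ha i) hs
    · rw [hf]; simp only [if_neg h]; exact hg1 l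
  have h1 := null_glob hfs i (by rw [hfi]; exact hc)
  rw [← h1]
  congr 1
  funext x
  by_cases hx : x ∈ tsupport (a i)
  · congr 1
    funext k j
    by_cases h : k = i
    · rw [h, hfi]
    · have h2 : f k = g k := by rw [hf]; simp only [if_neg h]
      rw [h2, (hg2 k x hx).fderiv_eq]
  · have h0 : fderiv ℝ (a i) x = 0 := by
      have h2 : a i =ᶠ[𝓝 x] fun _ => (0 : ℝ) := notMem_tsupport_iff_eventuallyEq.mp hx
      rw [h2.fderiv_eq]
      simp
    have t1 : Matrix.det (Matrix.of fun k j : Fin d => fderiv ℝ (a k) x (eb j)) = 0 :=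
      Matrix.det_eq_zero_of_row_eq_zero i (fun j => by rw [Matrix.of_apply, h0]; rfl)
    have t2 : Matrix.det (Matrix.of fun k j : Fin d => fderiv ℝ (f k) x (eb j)) = 0 :=
      Matrix.det_eq_zero_of_row_eq_zero i (fun j => by rw [Matrix.of_apply, hfi, h0]; rfl)
    exact t1.trans t2.symm

end Pool.Agent.L7h76.OF
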