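import Mathlib
import Pool.Agent.L7h49.OF.Stm

/-!
The alternating sums `Om` (parts `S_OM1`, `S_OM2`, `S_OM3` of the project OF).
-/

set_option autoImplicit false

open Set Filter Topology MeasureTheory
open scoped ContDiff

noncomputable section

namespace Pool.Agent.L7h76.OF

open Pool.Agent.L7h49.OF

/-- the rows of the matrices -/
def rw3 {n : ℕ} (a b : Fin (n + 2)) (C : Fin n → Fin (n + 2) → ℝ) :
    Fin (n + 2) → Fin (n + 2) → ℝ :=
  Fin.cons (fun k => if a = k then 1 else 0) (Fin.cons (fun k => if b = k then 1 else 0) C :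
    Fin (n + 1) → Fin (n + 2) → ℝ)

section gen

variable {V : Type} [AddCommGroup V] [Module ℝ V] [TopologicalSpace V]

lemma Om_eq {n : ℕ} (B : V [⋀^Fin 2]→L[ℝ] ℝ) (c : Fin n → V →L[ℝ] ℝ) (v : Fin (n + 2) → V) :
    Om B c v = ∑ a : Fin (n + 2), ∑ b : Fin (n + 2), B ![v a, v b] *
      Matrix.det (Matrix.of (rw3 a b fun j k => c j (v k))) := by
  have h1 : ∀ a b : Fin (n + 2), Matrix.det (Matrix.of (rw3 a b fun j k => c j (v k))) =
      ∑ π : Equiv.Perm (Fin (n + 2)), ((Equiv.Perm.sign π : ℤ) : ℝ) *
        ((if a = π 0 then 1 else 0) * ((if b = π 1 then 1 else 0) *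
          ∏ j : Fin n, c j (v (π j.succ.succ)))) := by
    intro a b
    rw [← Matrix.det_transpose, Matrix.det_apply']
    apply Finset.sum_congr rfl
    intro π _
    congr 1
    rw [Fin.prod_univ_succ, Fin.prod_univ_succ]
    rfl
  simp only [h1, Finset.mul_sum]
  have h2 : ∀ a : Fin (n + 2), ∑ b : Fin (n + 2), ∑ π : Equiv.Perm (Fin (n + 2)),
      B ![v a, v b] * (((Equiv.Perm.sign π : ℤ) : ℝ) *
        ((if a = π 0 then 1 else 0) * ((if b = π 1 then 1 else 0) *
          ∏ j : Fin n, c j (v (π j.succ.succ))))) =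
      ∑ π : Equiv.Perm (Fin (n + 2)), if a = π 0 then B ![v a, v (π 1)] *
        (((Equiv.Perm.sign π : ℤ) : ℝ) * ∏ j : Fin n, c j (v (π j.succ.succ))) else 0 := by
    intro a
    rw [Finset.sum_comm]
    apply Finset.sum_congr rfl
    intro π _
    rw [Finset.sum_eq_single (π 1)]
    · by_cases h : a = π 0
      · simp [h]
      · simp [h]
    · intro b _ hb
      rw [if_neg hb]
      ring
    · intro h
      exact absurd (Finset.mem_univ _) h
  simp only [h2]
  rw [Finset.sum_comm]
  unfold Om
  apply Finset.sum_congr rfl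
  intro π _
  rw [Finset.sum_ite_eq' Finset.univ (π 0), if_pos (Finset.mem_univ _)]
  ring

end gen

theorem st_OM2 : S_OM2 := by
  intro n B c
  rw [Om_eq]
  apply Finset.sum_congr rfl
  intro a _
  apply Finset.sum_congr rfl
  intro b _
  congr 2
  funext i j
  refine Fin.cases ?_ (fun i => ?_) i
  · show (if a = j then (1 : ℝ) else 0) = co a (eb j)
    simp [eb, co, EuclideanSpace.proj]
  · refine Fin.cases ?_ (fun i => ?_) i
    · show (if b = j then (1 : ℝ) else 0) = co b (eb j)
      simp [eb, co, EuclideanSpace.proj]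
    · rfl

theorem st_OM3 : S_OM3 := by
  intro n V _ _ _ B c v h0 h1
  rw [Om_eq]
  set D : Matrix (Fin n) (Fin n) ℝ := Matrix.of fun j k => c j (v k.succ.succ) with hD
  have key : ∀ a b : Fin (n + 2), Matrix.det (Matrix.of (rw3 a b fun j k => c j (v k))) =
      ((if a = 0 then 1 else 0) * (if b = 1 then 1 else 0) -
        (if a = 1 then 1 else 0) * (if b = 0 then 1 else 0)) * D.det := by
    intro a b
    set A : Matrix (Fin 2) (Fin 2) ℝ :=
      !![if a = 0 then 1 else 0, if a = 1 then 1 else 0;
        if b = 0 then 1 else 0, if b = 1 then 1 else 0] with hA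
    let e : Fin 2 ⊕ Fin n ≃ Fin (n + 2) := finSumFinEquiv.trans (finCongr (by omega))
    have e0 : e (Sum.inl 0) = 0 := by
      apply Fin.ext; simp [e]
    have e1 : e (Sum.inl 1) = 1 := by
      apply Fin.ext; simp [e]
    have e2 : ∀ k : Fin n, e (Sum.inr k) = k.succ.succ := by
      intro k
      apply Fin.ext
      simp [e]
    rw [← Matrix.det_submatrix_equiv_self e]
    set X : Matrix (Fin 2) (Fin n) ℝ :=
      Matrix.of fun i k => rw3 a b (fun j k => c j (v k)) (e (Sum.inl i)) k.succ.succ with hX
    have hblock : (Matrix.of (rw3 a b fun j k => c j (v k))).submatrix e e =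
        Matrix.fromBlocks A X 0 D := by
      ext i j
      rcases i with i | i
      · rcases j with j | j
        · rw [Matrix.submatrix_apply, Matrix.fromBlocks_apply₁₁, Matrix.of_apply]
          fin_cases i
          · fin_cases j
            · show rw3 a b (fun j k => c j (v k)) (e (Sum.inl 0)) (e (Sum.inl 0)) = _
              rw [e0]; rfl
            · show rw3 a b (fun j k => c j (v k)) (e (Sum.inl 0)) (e (Sum.inl 1)) = _
              rw [e0, e1]; rfl
          · fin_cases j
            · show rw3 a b (fun j k => c j (v k)) (e (Sum.inl 1)) (e (Sum.inl 0)) = _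
              rw [e0, e1]; rfl
            · show rw3 a b (fun j k => c j (v k)) (e (Sum.inl 1)) (e (Sum.inl 1)) = _
              rw [e1]; rfl
        · rw [Matrix.submatrix_apply, Matrix.fromBlocks_apply₁₂, e2]
          rfl
      · rcases j with j | j
        · rw [Matrix.submatrix_apply, Matrix.fromBlocks_apply₂₁, e2, Matrix.of_apply]
          fin_cases j
          · show rw3 a b (fun j k => c j (v k)) i.succ.succ (e (Sum.inl 0)) = 0
            rw [e0]; exact h0 i
          · show rw3 a b (fun j k => c j (v k)) i.succ.succ (e (Sum.inl 1)) = 0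
            rw [e1]; exact h1 i
        · rw [Matrix.submatrix_apply, Matrix.fromBlocks_apply₂₂, e2, e2]
          rfl
    rw [hblock, Matrix.det_fromBlocks_zero₂₁, hA, Matrix.det_fin_two_of]
  simp only [key]
  have h2 : ∀ a b : Fin (n + 2), B ![v a, v b] * (((if a = 0 then 1 else 0) *
      (if b = 1 then 1 else 0) - (if a = 1 then 1 else 0) * (if b = 0 then 1 else 0)) * D.det) =
      (if b = 1 then (if a = 0 then B ![v a, v b] * D.det else 0) else 0) -
      (if b = 0 then (if a = 1 then B ![v a, v b] * D.det else 0) else 0) := by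
    intro a b
    split_ifs <;> ring
  simp only [h2, Finset.sum_sub_distrib, Finset.sum_ite_eq', Finset.mem_univ, if_true]
  have h3 : B ![v 1, v 0] = - B ![v 0, v 1] := by
    have := B.toAlternatingMap.map_swap ![v 0, v 1] (i := 0) (j := 1) (by decide)
    have h4 : (![v 0, v 1] : Fin 2 → V) ∘ (Equiv.swap 0 1) = ![v 1, v 0] := by
      funext i
      fin_cases i <;> rfl
    rw [h4] at this
    exact this
  rw [h3]
  have h5 : Matrix.det (fun j k : Fin n => c j (v k.succ.succ)) = D.det := rfl
  rw [h5]
  ring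

/-! ### naturality -/

section mul

variable {n : ℕ} {V : Type} [AddCommGroup V] [Module ℝ V] [TopologicalSpace V]

/-- the summand -/
def mf (B : V [⋀^Fin 2]→L[ℝ] ℝ) (c : Fin n → V →L[ℝ] ℝ) (v : Fin (n + 2) → V) : ℝ :=
  B ![v 0, v 1] * ∏ j : Fin n, c j (v j.succ.succ)

omit [AddCommGroup V] [Module ℝ V] [TopologicalSpace V] in
lemma two_upd (x y : V) :
    (Function.update ![x, y] 0 : V → Fin 2 → V) = fun z => ![z, y] := by
  funext z i
  fin_cases i <;> rfl

lemma B_left (B : V [⋀^Fin 2]→L[ℝ] ℝ) (x x' y : V) : B ![x + x', y] = B ![x, y] + B ![x', y] := by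
  have := B.map_update_add ![x, y] 0 x x'
  simpa [two_upd] using this

lemma B_left_smul (B : V [⋀^Fin 2]→L[ℝ] ℝ) (r : ℝ) (x y : V) : B ![r • x, y] = r * B ![x, y] := by
  have := B.map_update_smul ![x, y] 0 r x
  simpa [two_upd] using this

lemma B_swap (B : V [⋀^Fin 2]→L[ℝ] ℝ) (x y : V) : B ![y, x] = - B ![x, y] := by
  have := B.toAlternatingMap.map_swap ![x, y] (i := 0) (j := 1) (by decide)
  have h4 : (![x, y] : Fin 2 → V) ∘ (Equiv.swap 0 1) = ![y, x] := by
    funext i
    fin_cases i <;> rfl
  rw [h4] at this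
  exact this

lemma B_right (B : V [⋀^Fin 2]→L[ℝ] ℝ) (x y y' : V) : B ![x, y + y'] = B ![x, y] + B ![x, y'] := by
  rw [B_swap B (y + y') x, B_left, B_swap B y x, B_swap B y' x]
  ring

lemma B_right_smul (B : V [⋀^Fin 2]→L[ℝ] ℝ) (r : ℝ) (x y : V) : B ![x, r • y] = r * B ![x, y] := by
  rw [B_swap B (r • y) x, B_left_smul, B_swap B y x]
  ring

omit [AddCommGroup V] [Module ℝ V] [TopologicalSpace V] in
lemma upd_ne (hd : DecidableEq (Fin (n + 2))) {i j : Fin (n + 2)} (h : j ≠ i)
    (v : Fin (n + 2) → V) (x : V) :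
    @Function.update (Fin (n + 2)) (fun _ => V) hd v i x j = v j := Function.update_of_ne h x v

omit [AddCommGroup V] [Module ℝ V] [TopologicalSpace V] in
lemma upd_self (hd : DecidableEq (Fin (n + 2))) (i : Fin (n + 2)) (v : Fin (n + 2) → V) (x : V) :
    @Function.update (Fin (n + 2)) (fun _ => V) hd v i x i = x := Function.update_self i x v

lemma prod_upd (hd : DecidableEq (Fin (n + 2))) (c : Fin n → V →L[ℝ] ℝ) (v : Fin (n + 2) → V)
    (i : Fin n) (x : V) :
    ∏ j : Fin n, c j (@Function.update (Fin (n + 2)) (fun _ => V) hd v i.succ.succ x j.succ.succ) =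
      c i x * ∏ j ∈ Finset.univ.erase i, c j (v j.succ.succ) := by
  rw [← Finset.mul_prod_erase Finset.univ _ (Finset.mem_univ i), upd_self]
  congr 1
  apply Finset.prod_congr rfl
  intro j hj
  rw [upd_ne]
  intro h
  exact (Finset.ne_of_mem_erase hj) (Fin.succ_injective _ (Fin.succ_injective _ h))

lemma one_ne_zero' : (1 : Fin (n + 2)) ≠ 0 := by
  intro h
  have := congrArg Fin.val h
  simp at this

lemma one_ne_ss (i : Fin n) : (1 : Fin (n + 2)) ≠ i.succ.succ := by
  intro h
  have := congrArg Fin.val h
  simp at this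

/-- the multilinear map -/
def mm (B : V [⋀^Fin 2]→L[ℝ] ℝ) (c : Fin n → V →L[ℝ] ℝ) :
    MultilinearMap ℝ (fun _ : Fin (n + 2) => V) ℝ where
  toFun v := mf B c v
  map_update_add' := by
    intro hd v i x y
    unfold mf
    revert x y
    refine Fin.cases (fun x y => ?_) (fun i => ?_) i
    · have h1 : ∀ (z : V), Function.update v 0 z 1 = v 1 := fun z => upd_ne hd one_ne_zero' v z
      have h2 : ∀ (z : V) (j : Fin n), Function.update v 0 z j.succ.succ = v j.succ.succ :=
        fun z j => upd_ne hd (Fin.succ_ne_zero _) v z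
      simp only [upd_self, h1, h2, B_left]
      ring
    · refine Fin.cases (fun x y => ?_) (fun i x y => ?_) i
      · have h0 : ∀ (z : V), Function.update v (Fin.succ 0) z 0 = v 0 :=
          fun z => upd_ne hd (Fin.succ_ne_zero _).symm v z
        have h1 : ∀ (z : V), Function.update v (Fin.succ 0) z 1 = z := fun z =>
          upd_self hd (Fin.succ 0) v z
        have h2 : ∀ (z : V) (j : Fin n), Function.update v (Fin.succ 0) z j.succ.succ =
            v j.succ.succ := fun z j => upd_ne hd (by
              intro h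
              exact Fin.succ_ne_zero _ (Fin.succ_injective _ h)) v z
        simp only [h0, h1, h2, B_right]
        ring
      · have h0 : ∀ (z : V), Function.update v i.succ.succ z 0 = v 0 :=
          fun z => upd_ne hd (Fin.succ_ne_zero _).symm v z
        have h1 : ∀ (z : V), Function.update v i.succ.succ z 1 = v 1 :=
          fun z => upd_ne hd (one_ne_ss i) v z
        simp only [h0, h1, prod_upd, map_add]
        ring
  map_update_smul' := by
    intro hd v i r x
    unfold mf
    revert x
    refine Fin.cases (fun x => ?_) (fun i => ?_) i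
    · have h1 : ∀ (z : V), Function.update v 0 z 1 = v 1 := fun z => upd_ne hd one_ne_zero' v z
      have h2 : ∀ (z : V) (j : Fin n), Function.update v 0 z j.succ.succ = v j.succ.succ :=
        fun z j => upd_ne hd (Fin.succ_ne_zero _) v z
      simp only [upd_self, h1, h2, B_left_smul, smul_eq_mul]
      ring
    · refine Fin.cases (fun x => ?_) (fun i x => ?_) i
      · have h0 : ∀ (z : V), Function.update v (Fin.succ 0) z 0 = v 0 :=
          fun z => upd_ne hd (Fin.succ_ne_zero _).symm v z
        have h1 : ∀ (z : V), Function.update v (Fin.succ 0) z 1 = z := fun z =>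
          upd_self hd (Fin.succ 0) v z
        have h2 : ∀ (z : V) (j : Fin n), Function.update v (Fin.succ 0) z j.succ.succ =
            v j.succ.succ := fun z j => upd_ne hd (by
              intro h
              exact Fin.succ_ne_zero _ (Fin.succ_injective _ h)) v z
        simp only [h0, h1, h2, B_right_smul, smul_eq_mul]
        ring
      · have h0 : ∀ (z : V), Function.update v i.succ.succ z 0 = v 0 :=
          fun z => upd_ne hd (Fin.succ_ne_zero _).symm v z
        have h1 : ∀ (z : V), Function.update v i.succ.succ z 1 = v 1 :=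
          fun z => upd_ne hd (one_ne_ss i) v z
        simp only [h0, h1, prod_upd, map_smul, smul_eq_mul]
        ring

lemma Om_alt (B : V [⋀^Fin 2]→L[ℝ] ℝ) (c : Fin n → V →L[ℝ] ℝ) (v : Fin (n + 2) → V) :
    Om B c v = MultilinearMap.alternatization (mm B c) v := by
  rw [MultilinearMap.alternatization_apply]
  unfold Om
  apply Finset.sum_congr rfl
  intro π _
  rw [Units.smul_def, zsmul_eq_mul]
  rfl

end mul

theorem st_OM1 : S_OM1 := by
  intro n B c A v
  rw [Om_alt, Om_alt]
  set f := MultilinearMap.alternatization (mm B c) with hf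
  set e := (EuclideanSpace.basisFun (Fin (n + 2)) ℝ).toBasis with he
  rw [f.eq_smul_basis_det e, AlternatingMap.smul_apply, AlternatingMap.smul_apply]
  have h1 : e.det (fun i => A (v i)) = LinearMap.det (A : E (n + 2) →ₗ[ℝ] E (n + 2)) * e.det v :=
    e.det_comp (A : E (n + 2) →ₗ[ℝ] E (n + 2)) v
  rw [h1, smul_eq_mul, smul_eq_mul]
  ring

end Pool.Agent.L7h76.OF
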