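import Mathlib
import Pool.Agent.L7h49.OF.Stm
import Pool.Agent.L7h76.OF.Om
import Pool.Agent.L7h76.OF.NL

/-!
Stokes' theorem for `β ∧ da_1 ∧ ... ∧ da_n` (parts `S_ST1`, `S_ST2` of the project OF).
-/

set_option autoImplicit false

open Set Filter Topology MeasureTheory
open scoped ContDiff

noncomputable section

namespace Pool.Agent.L7h76.OF

open Pool.Agent.L7h49.OF

variable {n : ℕ}

/-- evaluation of a covector on the standard basis -/
def evb (d : ℕ) : (E d →L[ℝ] ℝ) →ₗ[ℝ] (Fin d → ℝ) where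
  toFun r j := r (eb j)
  map_add' _ _ := rfl
  map_smul' _ _ := rfl

/-- the determinant of `d` covectors -/
def DD (d : ℕ) : (E d →L[ℝ] ℝ) [⋀^Fin d]→ₗ[ℝ] ℝ :=
  Matrix.detRowAlternating.compLinearMap (evb d)

lemma DD_apply {d : ℕ} (r : Fin d → E d →L[ℝ] ℝ) :
    DD d r = Matrix.det (fun i j : Fin d => r i (eb j)) := rfl

lemma DD_continuous (d : ℕ) : Continuous (fun r : Fin d → E d →L[ℝ] ℝ => DD d r) := by
  have h : Continuous (fun r : Fin d → E d →L[ℝ] ℝ =>
      Matrix.det (Matrix.of fun i j : Fin d => r i (eb j))) := by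
    apply Continuous.matrix_det
    refine continuous_matrix fun i j => ?_
    simp only [Matrix.of_apply]
    fun_prop
  exact h

/-- the linear map in the first entry -/
def DL (q : E (n + 2) →L[ℝ] ℝ) (c : Fin n → E (n + 2) →L[ℝ] ℝ) :
    (E (n + 2) →L[ℝ] ℝ) →ₗ[ℝ] ℝ :=
  (DD (n + 2)).toMultilinearMap.toLinearMap (Fin.cons 0 (Fin.cons q c)) 0

lemma DL_apply (p q : E (n + 2) →L[ℝ] ℝ) (c : Fin n → E (n + 2) →L[ℝ] ℝ) :
    DL q c p = DD (n + 2) (Fin.cons p (Fin.cons q c)) := by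
  have h : DL q c p = DD (n + 2) (Function.update (Fin.cons 0 (Fin.cons q c)) 0 p) := rfl
  rw [h, Fin.update_cons_zero]

/-- the linear map in the entry `i + 2` -/
def DR (i : Fin n) (p q : E (n + 2) →L[ℝ] ℝ) (c : Fin n → E (n + 2) →L[ℝ] ℝ) :
    (E (n + 2) →L[ℝ] ℝ) →ₗ[ℝ] ℝ :=
  (DD (n + 2)).toMultilinearMap.toLinearMap (Fin.cons p (Fin.cons q c)) i.succ.succ

lemma DR_apply (i : Fin n) (p q : E (n + 2) →L[ℝ] ℝ) (c : Fin n → E (n + 2) →L[ℝ] ℝ)
    (r : E (n + 2) →L[ℝ] ℝ) :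
    DR i p q c r = DD (n + 2) (Fin.cons p (Fin.cons q (Function.update c i r))) := by
  have h : DR i p q c r = DD (n + 2) (Function.update (Fin.cons p (Fin.cons q c)) i.succ.succ r) :=
    rfl
  rw [h, Fin.cons_update, Fin.cons_update]

lemma swap01 (p q : E (n + 2) →L[ℝ] ℝ) (c : Fin n → E (n + 2) →L[ℝ] ℝ) :
    DD (n + 2) (Fin.cons q (Fin.cons p c)) = - DD (n + 2) (Fin.cons p (Fin.cons q c)) := by
  rw [← (DD (n + 2)).map_swap _ (i := 0) (j := 1) (Ne.symm one_ne_zero')]
  congr 1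
  funext k
  refine Fin.cases ?_ (fun k => Fin.cases ?_ (fun k => ?_) k) k
  · simp only [Function.comp_apply, Equiv.swap_apply_left]
    rfl
  · have h : (Fin.succ 0 : Fin (n + 2)) = 1 := rfl
    simp only [Function.comp_apply, h, Equiv.swap_apply_right]
    rfl
  · rw [Function.comp_apply, Equiv.swap_apply_of_ne_of_ne (Fin.succ_ne_zero _)
      (Ne.symm (one_ne_ss k))]
    rfl

lemma swap1r (i : Fin n) (p q r : E (n + 2) →L[ℝ] ℝ) (c : Fin n → E (n + 2) →L[ℝ] ℝ) :
    DR i p r c q = - DR i p q c r := by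
  rw [DR_apply, DR_apply, ← (DD (n + 2)).map_swap _ (i := 1) (j := i.succ.succ) (one_ne_ss i)]
  congr 1
  funext k
  refine Fin.cases ?_ (fun k => Fin.cases ?_ (fun k => ?_) k) k
  · rw [Function.comp_apply, Equiv.swap_apply_of_ne_of_ne (Ne.symm one_ne_zero')
      (Ne.symm (Fin.succ_ne_zero _))]
    rfl
  · have h : (Fin.succ 0 : Fin (n + 2)) = 1 := rfl
    rw [Function.comp_apply, h, Equiv.swap_apply_left]
    have h1 : (Fin.cons p (Fin.cons r (Function.update c i q) : Fin (n + 1) → E (n + 2) →L[ℝ] ℝ) :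
      Fin (n + 2) → E (n + 2) →L[ℝ] ℝ) 1 = r := rfl
    have h2 : (Fin.cons p (Fin.cons q (Function.update c i r) : Fin (n + 1) → E (n + 2) →L[ℝ] ℝ) :
      Fin (n + 2) → E (n + 2) →L[ℝ] ℝ) i.succ.succ = Function.update c i r i := rfl
    rw [h1, h2, Function.update_self]
  · by_cases hk : k = i
    · subst hk
      rw [Function.comp_apply, Equiv.swap_apply_right]
      have h1 : (Fin.cons p (Fin.cons q (Function.update c k r) : Fin (n + 1) → E (n + 2) →L[ℝ] ℝ) :
        Fin (n + 2) → E (n + 2) →L[ℝ] ℝ) 1 = q := rfl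
      have h2 : (Fin.cons p (Fin.cons r (Function.update c k q) : Fin (n + 1) → E (n + 2) →L[ℝ] ℝ) :
        Fin (n + 2) → E (n + 2) →L[ℝ] ℝ) k.succ.succ = Function.update c k q k := rfl
      rw [h1, h2, Function.update_self]
    · have h0 : k.succ.succ ≠ i.succ.succ := fun h =>
        hk (Fin.succ_injective _ (Fin.succ_injective _ h))
      rw [Function.comp_apply, Equiv.swap_apply_of_ne_of_ne (Ne.symm (one_ne_ss k)) h0]
      simp only [Fin.cons_succ, Function.update_of_ne hk]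

lemma swap01R (i : Fin n) (p q r : E (n + 2) →L[ℝ] ℝ) (c : Fin n → E (n + 2) →L[ℝ] ℝ) :
    DR i q p c r = - DR i p q c r := by
  rw [DR_apply, DR_apply, swap01]

/-- the expansion of covectors -/
lemma co_expand {d : ℕ} (r : E d →L[ℝ] ℝ) : r = ∑ a : Fin d, r (eb a) • (co a : E d →L[ℝ] ℝ) := by
  ext v
  have h : v = ∑ a : Fin d, v a • (eb a : E d) := by
    ext j
    simp [Finset.sum_apply, Pi.single_apply]
  conv_lhs => rw [h]
  rw [map_sum, _root_.sum_apply]
  refine Finset.sum_congr rfl fun a _ => ?_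
  simp [mul_comm]

lemma Om_DD (B : (E (n + 2)) [⋀^Fin 2]→L[ℝ] ℝ) (c : Fin n → E (n + 2) →L[ℝ] ℝ) :
    Om B c eb = ∑ a : Fin (n + 2), ∑ b : Fin (n + 2),
      B ![eb a, eb b] * DD (n + 2) (Fin.cons (co a) (Fin.cons (co b) c)) :=
  st_OM2 n B c

/-! ### integrability -/

lemma integ {d : ℕ} {U K : Set (E d)} {f : E d → ℝ} (hU : IsOpen U) (hf : ContinuousOn f U)
    (hK : IsCompact K) (hKU : K ⊆ U) (h0 : ∀ x, x ∉ K → f x = 0) : Integrable f := by
  have h1 : Continuous f := by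
    rw [continuous_iff_continuousAt]
    intro x
    by_cases hx : x ∈ U
    · exact hf.continuousAt (hU.mem_nhds hx)
    · have hx' : x ∈ Kᶜ := fun h => hx (hKU h)
      have h2 : f =ᶠ[𝓝 x] fun _ => (0 : ℝ) := by
        filter_upwards [hK.isClosed.isOpen_compl.mem_nhds hx'] with y hy
        exact h0 y hy
      exact continuousAt_const.congr h2.symm
  exact h1.integrable_of_hasCompactSupport (HasCompactSupport.intro hK h0)

lemma DD_cont {d : ℕ} {U : Set (E d)} {r : Fin d → E d → E d →L[ℝ] ℝ}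
    (hr : ∀ i, ContinuousOn (r i) U) : ContinuousOn (fun x => DD d (fun i => r i x)) U :=
  (DD_continuous d).comp_continuousOn (continuousOn_pi.2 hr)

lemma DD_int {d : ℕ} {U K : Set (E d)} {r : Fin d → E d → E d →L[ℝ] ℝ} (hU : IsOpen U)
    (hr : ∀ i, ContinuousOn (r i) U) (hK : IsCompact K) (hKU : K ⊆ U) (i : Fin d)
    (h0 : ∀ x, x ∉ K → r i x = 0) : Integrable (fun x => DD d (fun i => r i x)) := by
  refine integ hU (DD_cont hr) hK hKU fun x hx => ?_
  exact (DD d).map_coord_zero i (h0 x hx)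

lemma fderiv_cont {d : ℕ} {U : Set (E d)} {f : E d → ℝ} (hU : IsOpen U)
    (hf : ContDiffOn ℝ ∞ f U) : ContinuousOn (fderiv ℝ f) U :=
  hf.continuousOn_fderiv_of_isOpen hU (by simp)

lemma fderiv_zero_of {d : ℕ} {f : E d → ℝ} {x : E d} (hx : x ∉ tsupport f) :
    fderiv ℝ f x = 0 := by
  have h2 : f =ᶠ[𝓝 x] fun _ => (0 : ℝ) := notMem_tsupport_iff_eventuallyEq.mp hx
  rw [h2.fderiv_eq]
  simp

lemma fderiv_co {d : ℕ} (j : Fin d) (x : E d) :
    fderiv ℝ (fun x : E d => co j x) x = co j := (co j : E d →L[ℝ] ℝ).fderiv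

/-- the null Lagrangian in the form used below -/
lemma NL_DD {d : ℕ} {U : Set (E d)} (hU : IsOpen U) (a : Fin d → E d → ℝ) (i : Fin d)
    (ha : ∀ j, ContDiffOn ℝ ∞ (a j) U) (hc : HasCompactSupport (a i)) (hs : tsupport (a i) ⊆ U) :
    Integrable (fun x => DD d (fun k => fderiv ℝ (a k) x)) ∧
    ∫ x, DD d (fun k => fderiv ℝ (a k) x) = 0 :=
  ⟨DD_int hU (fun k => fderiv_cont hU (ha k)) hc hs i (fun _ hx => fderiv_zero_of hx),
    st_NL d U a i hU ha hc hs⟩

/-! ### exact forms -/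

/-- the components of a one-form -/
def c1 (β : E (n + 2) → (E (n + 2)) [⋀^Fin 1]→L[ℝ] ℝ) (b : Fin (n + 2)) (x : E (n + 2)) : ℝ :=
  β x ![eb b]

lemma c1_fderiv {β : E (n + 2) → (E (n + 2)) [⋀^Fin 1]→L[ℝ] ℝ} {x : E (n + 2)}
    (hβ : DifferentiableAt ℝ β x) (b : Fin (n + 2)) (v : E (n + 2)) :
    fderiv ℝ (c1 β b) x v = fderiv ℝ β x v ![eb b] := by
  have h := (ContinuousAlternatingMap.apply ℝ (E (n + 2)) ℝ ![eb b]).hasFDerivAt.comp x
    hβ.hasFDerivAt
  have h2 : fderiv ℝ (c1 β b) x = _ := h.fderiv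
  rw [h2]
  rfl

lemma extDeriv_one (β : E (n + 2) → (E (n + 2)) [⋀^Fin 1]→L[ℝ] ℝ) (z u w : E (n + 2)) :
    extDeriv β z ![u, w] = fderiv ℝ β z u ![w] - fderiv ℝ β z w ![u] := by
  unfold extDeriv
  rw [ContinuousAlternatingMap.alternatizeUncurryFin_apply, Fin.sum_univ_two]
  have h0 : (0 : Fin 2).removeNth ![u, w] = ![w] := by
    funext i
    fin_cases i
    rfl
  have h1 : (1 : Fin 2).removeNth ![u, w] = ![u] := by
    funext i
    fin_cases i
    rfl
  rw [h0, h1]
  simp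
  ring

lemma Om_ext {β : E (n + 2) → (E (n + 2)) [⋀^Fin 1]→L[ℝ] ℝ} {x : E (n + 2)}
    (hβ : DifferentiableAt ℝ β x) (c : Fin n → E (n + 2) →L[ℝ] ℝ) :
    Om (extDeriv β x) c eb = 2 * ∑ b : Fin (n + 2), DL (co b) c (fderiv ℝ (c1 β b) x) := by
  rw [Om_DD]
  set T : Fin (n + 2) → Fin (n + 2) → ℝ := fun a b => fderiv ℝ (c1 β b) x (eb a) with hT
  set D : Fin (n + 2) → Fin (n + 2) → ℝ := fun a b =>
    DD (n + 2) (Fin.cons (co a) (Fin.cons (co b) c)) with hD
  have hD' : ∀ a b, D b a = - D a b := fun a b => swap01 _ _ _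
  have h1 : ∑ a, ∑ b, (extDeriv β x) ![eb a, eb b] * D a b
      = ∑ a, ∑ b, T a b * D a b - ∑ a, ∑ b, T b a * D a b := by
    rw [← Finset.sum_sub_distrib]
    refine Finset.sum_congr rfl fun a _ => ?_
    rw [← Finset.sum_sub_distrib]
    refine Finset.sum_congr rfl fun b _ => ?_
    rw [extDeriv_one, ← c1_fderiv hβ, ← c1_fderiv hβ]
    ring
  have h2 : ∑ a, ∑ b, T b a * D a b = - ∑ a, ∑ b, T a b * D a b := by
    rw [Finset.sum_comm, ← Finset.sum_neg_distrib]
    refine Finset.sum_congr rfl fun a _ => ?_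
    rw [← Finset.sum_neg_distrib]
    refine Finset.sum_congr rfl fun b _ => ?_
    rw [hD']
    ring
  have h3 : ∑ a, ∑ b, T a b * D a b = ∑ b, DL (co b) c (fderiv ℝ (c1 β b) x) := by
    rw [Finset.sum_comm]
    refine Finset.sum_congr rfl fun b _ => ?_
    conv_rhs => rw [co_expand (fderiv ℝ (c1 β b) x), map_sum]
    refine Finset.sum_congr rfl fun a _ => ?_
    rw [map_smul, DL_apply, smul_eq_mul]
  have h4 : ∑ a, ∑ b, (extDeriv β x) ![eb a, eb b] *
      DD (n + 2) (Fin.cons (co a) (Fin.cons (co b) c)) =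
      ∑ a, ∑ b, (extDeriv β x) ![eb a, eb b] * D a b := rfl
  rw [h4, h1, h2, h3]
  ring

lemma DL_span (q : E (n + 2) →L[ℝ] ℝ) (c : Fin n → E (n + 2) →L[ℝ] ℝ) (t : Fin n → ℝ) :
    DL q c (∑ j, t j • c j) = 0 := by
  rw [map_sum]
  refine Finset.sum_eq_zero fun j _ => ?_
  rw [map_smul, DL_apply, (DD (n + 2)).map_eq_zero_of_eq _ (i := 0) (j := j.succ.succ) rfl
    (Ne.symm (Fin.succ_ne_zero _)), smul_zero]

/-- the functions in the null Lagrangian -/
def fam (p q : E (n + 2) → ℝ) (a : Fin n → E (n + 2) → ℝ) : Fin (n + 2) → E (n + 2) → ℝ :=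
  Fin.cons p (Fin.cons q a)

lemma fam_fderiv (p q : E (n + 2) → ℝ) (a : Fin n → E (n + 2) → ℝ) (x : E (n + 2)) :
    (fun k => fderiv ℝ (fam p q a k) x) =
      (Fin.cons (fderiv ℝ p x) (Fin.cons (fderiv ℝ q x) (fun j => fderiv ℝ (a j) x) :
        Fin (n + 1) → E (n + 2) →L[ℝ] ℝ) : Fin (n + 2) → E (n + 2) →L[ℝ] ℝ) := by
  funext k
  refine Fin.cases ?_ (fun k => Fin.cases ?_ (fun k => ?_) k) k
  · rfl
  · rfl
  · rfl

lemma fam_all {P : (E (n + 2) → ℝ) → Prop} {p q : E (n + 2) → ℝ} {a : Fin n → E (n + 2) → ℝ}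
    (hp : P p) (hq : P q) (ha : ∀ j, P (a j)) (k : Fin (n + 2)) : P (fam p q a k) := by
  refine Fin.cases ?_ (fun k => Fin.cases ?_ (fun k => ?_) k) k
  · exact hp
  · exact hq
  · exact ha k

theorem st_ST1 : S_ST1 := by
  intro n U β a G hU hβ hc hs ha hG hspan
  have hcomp : ∀ b, ContDiffOn ℝ ∞ (c1 β b) U := fun b =>
    (ContinuousAlternatingMap.apply ℝ (E (n + 2)) ℝ ![eb b]).contDiff.comp_contDiffOn hβ
  have hz : ∀ b, tsupport (fun x => G x * c1 β b x) ⊆ tsupport β := by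
    intro b
    refine closure_mono fun x hx => ?_
    rw [Function.mem_support] at hx ⊢
    intro h0
    apply hx
    have h1 : c1 β b x = 0 := by
      unfold c1
      rw [h0]
      rfl
    rw [h1, mul_zero]
  have hcb : ∀ b, HasCompactSupport (fun x => G x * c1 β b x) := fun b =>
    hc.isCompact.of_isClosed_subset (isClosed_tsupport _) (hz b)
  have hNL : ∀ b : Fin (n + 2),
      Integrable (fun x => DD (n + 2) (fun k =>
        fderiv ℝ (fam (fun x => G x * c1 β b x) (fun x => co b x) a k) x)) ∧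
      ∫ x, DD (n + 2) (fun k =>
        fderiv ℝ (fam (fun x => G x * c1 β b x) (fun x => co b x) a k) x) = 0 := fun b =>
    NL_DD hU _ 0 (fam_all (P := fun f => ContDiffOn ℝ ∞ f U) (hG.mul (hcomp b))
      (co b : E (n + 2) →L[ℝ] ℝ).contDiff.contDiffOn ha) (hcb b) ((hz b).trans hs)
  have hpt : ∀ x, G x * Om (extDeriv β x) (fun j => fderiv ℝ (a j) x) eb
      = 2 * ∑ b : Fin (n + 2), DD (n + 2) (fun k =>
        fderiv ℝ (fam (fun x => G x * c1 β b x) (fun x => co b x) a k) x) := by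
    intro x
    by_cases hx : x ∈ tsupport β
    · have hxU := hs hx
      have hβx : DifferentiableAt ℝ β x :=
        (hβ.contDiffAt (hU.mem_nhds hxU)).differentiableAt (by simp)
      rw [Om_ext hβx, ← mul_assoc, mul_comm (G x) 2, mul_assoc, Finset.mul_sum]
      congr 1
      refine Finset.sum_congr rfl fun b _ => ?_
      rw [fam_fderiv, fderiv_co, ← DL_apply]
      have h1 : fderiv ℝ (fun x => G x * c1 β b x) x
          = G x • fderiv ℝ (c1 β b) x + c1 β b x • fderiv ℝ G x :=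
        fderiv_fun_mul ((hG.contDiffAt (hU.mem_nhds hxU)).differentiableAt (by simp))
          (((hcomp b).contDiffAt (hU.mem_nhds hxU)).differentiableAt (by simp))
      obtain ⟨t, ht⟩ := hspan x hxU
      rw [h1, map_add, map_smul, map_smul, ht, DL_span, smul_zero, add_zero, smul_eq_mul]
    · have h0 : extDeriv β x = 0 := by
        have h2 : β =ᶠ[𝓝 x] fun _ => 0 := notMem_tsupport_iff_eventuallyEq.mp hx
        unfold extDeriv
        rw [h2.fderiv_eq, fderiv_const_apply]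
        exact map_zero (ContinuousAlternatingMap.alternatizeUncurryFinCLM ℝ (E (n + 2)) ℝ)
      have h1 : Om (extDeriv β x) (fun j => fderiv ℝ (a j) x) eb = 0 := by
        rw [h0, Om_DD]
        simp
      rw [h1, mul_zero]
      symm
      rw [mul_eq_zero]
      right
      refine Finset.sum_eq_zero fun b _ => ?_
      refine (DD (n + 2)).map_coord_zero 0 ?_
      exact fderiv_zero_of (fun h => hx (hz b h))
  simp only [hpt]
  rw [integral_const_mul, integral_finsetSum _ fun b _ => (hNL b).1]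
  simp only [(hNL _).2, Finset.sum_const_zero, mul_zero]

/-! ### closed forms -/

/-- the components of a two-form -/
def c2 (ζ : E (n + 2) → (E (n + 2)) [⋀^Fin 2]→L[ℝ] ℝ) (p q : Fin (n + 2)) (x : E (n + 2)) : ℝ :=
  ζ x ![eb p, eb q]

lemma c2_fderiv {ζ : E (n + 2) → (E (n + 2)) [⋀^Fin 2]→L[ℝ] ℝ} {x : E (n + 2)}
    (hζ : DifferentiableAt ℝ ζ x) (p q : Fin (n + 2)) (v : E (n + 2)) :
    fderiv ℝ (c2 ζ p q) x v = fderiv ℝ ζ x v ![eb p, eb q] := by
  have h := (ContinuousAlternatingMap.apply ℝ (E (n + 2)) ℝ ![eb p, eb q]).hasFDerivAt.comp x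
    hζ.hasFDerivAt
  have h2 : fderiv ℝ (c2 ζ p q) x = _ := h.fderiv
  rw [h2]
  rfl

lemma extDeriv_two (ζ : E (n + 2) → (E (n + 2)) [⋀^Fin 2]→L[ℝ] ℝ) (z u v w : E (n + 2)) :
    extDeriv ζ z ![u, v, w] = fderiv ℝ ζ z u ![v, w] - fderiv ℝ ζ z v ![u, w]
      + fderiv ℝ ζ z w ![u, v] := by
  unfold extDeriv
  rw [ContinuousAlternatingMap.alternatizeUncurryFin_apply, Fin.sum_univ_three]
  have h0 : (0 : Fin 3).removeNth ![u, v, w] = ![v, w] := by
    funext i
    fin_cases i <;> rfl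
  have h1 : (1 : Fin 3).removeNth ![u, v, w] = ![u, w] := by
    funext i
    fin_cases i <;> rfl
  have h2 : (2 : Fin 3).removeNth ![u, v, w] = ![u, v] := by
    funext i
    fin_cases i <;> rfl
  rw [h0, h1, h2]
  simp
  ring

lemma tri13 {m : ℕ} (F : Fin m → Fin m → Fin m → ℝ) :
    ∑ p, ∑ q, ∑ r, F p q r = ∑ p, ∑ q, ∑ r, F r q p := by
  calc ∑ p, ∑ q, ∑ r, F p q r = ∑ q, ∑ p, ∑ r, F p q r := Finset.sum_comm
    _ = ∑ q, ∑ r, ∑ p, F p q r := Finset.sum_congr rfl fun q _ => Finset.sum_comm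
    _ = ∑ r, ∑ q, ∑ p, F p q r := Finset.sum_comm

lemma triC {m : ℕ} (F : Fin m → Fin m → Fin m → ℝ) :
    ∑ p, ∑ q, ∑ r, F p q r = ∑ p, ∑ q, ∑ r, F q r p := by
  calc ∑ p, ∑ q, ∑ r, F p q r = ∑ p, ∑ r, ∑ q, F p q r :=
        Finset.sum_congr rfl fun q _ => Finset.sum_comm
    _ = ∑ r, ∑ p, ∑ q, F p q r := Finset.sum_comm

lemma closed_sum {ζ : E (n + 2) → (E (n + 2)) [⋀^Fin 2]→L[ℝ] ℝ} {x : E (n + 2)}
    (hζ : DifferentiableAt ℝ ζ x) (h0 : extDeriv ζ x = 0) (i : Fin n)
    (c : Fin n → E (n + 2) →L[ℝ] ℝ) :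
    ∑ p, ∑ q, DR i (co p) (co q) c (fderiv ℝ (c2 ζ p q) x) = 0 := by
  set T : Fin (n + 2) → Fin (n + 2) → Fin (n + 2) → ℝ :=
    fun r p q => fderiv ℝ (c2 ζ p q) x (eb r) with hT
  set D : Fin (n + 2) → Fin (n + 2) → Fin (n + 2) → ℝ :=
    fun p q r => DR i (co p) (co q) c (co r) with hD
  have hD1 : ∀ p q r, D q p r = - D p q r := fun p q r => swap01R _ _ _ _ _
  have hD2 : ∀ p q r, D p r q = - D p q r := fun p q r => swap1r _ _ _ _ _
  have hcl : ∀ p q r, T r p q - T p r q + T q r p = 0 := by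
    intro p q r
    have h1 := extDeriv_two ζ x (eb r) (eb p) (eb q)
    rw [h0, ← c2_fderiv hζ, ← c2_fderiv hζ, ← c2_fderiv hζ] at h1
    exact h1.symm
  have h1 : ∑ p, ∑ q, DR i (co p) (co q) c (fderiv ℝ (c2 ζ p q) x)
      = ∑ p, ∑ q, ∑ r, T r p q * D p q r := by
    refine Finset.sum_congr rfl fun p _ => Finset.sum_congr rfl fun q _ => ?_
    conv_lhs => rw [co_expand (fderiv ℝ (c2 ζ p q) x), map_sum]
    refine Finset.sum_congr rfl fun r _ => ?_
    rw [map_smul, smul_eq_mul]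
  have h2 : ∑ p, ∑ q, ∑ r, T p r q * D p q r = - ∑ p, ∑ q, ∑ r, T r p q * D p q r := by
    rw [tri13]
    simp only [← Finset.sum_neg_distrib]
    refine Finset.sum_congr rfl fun p _ => Finset.sum_congr rfl fun q _ =>
      Finset.sum_congr rfl fun r _ => ?_
    rw [hD1 q r p, hD2 q p r, hD1 p q r]
    ring
  have h3 : ∑ p, ∑ q, ∑ r, T q r p * D p q r = ∑ p, ∑ q, ∑ r, T r p q * D p q r := by
    rw [triC]
    refine Finset.sum_congr rfl fun p _ => Finset.sum_congr rfl fun q _ =>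
      Finset.sum_congr rfl fun r _ => ?_
    rw [hD2 q p r, hD1 p q r]
    ring
  have h4 : ∑ p, ∑ q, ∑ r, (T r p q - T p r q + T q r p) * D p q r = 0 := by
    simp only [hcl, zero_mul, Finset.sum_const_zero]
  have h5 : ∑ p, ∑ q, ∑ r, (T r p q - T p r q + T q r p) * D p q r
      = ∑ p, ∑ q, ∑ r, T r p q * D p q r - ∑ p, ∑ q, ∑ r, T p r q * D p q r
        + ∑ p, ∑ q, ∑ r, T q r p * D p q r := by
    simp only [← Finset.sum_sub_distrib, ← Finset.sum_add_distrib]
    refine Finset.sum_congr rfl fun p _ => Finset.sum_congr rfl fun q _ =>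
      Finset.sum_congr rfl fun r _ => ?_
    ring
  rw [h1]
  linarith

lemma upd_fderiv (a : Fin n → E (n + 2) → ℝ) (i : Fin n) (f : E (n + 2) → ℝ) (x : E (n + 2)) :
    (fun j => fderiv ℝ (Function.update a i f j) x) =
      Function.update (fun j => fderiv ℝ (a j) x) i (fderiv ℝ f x) := by
  funext j
  by_cases h : j = i
  · subst h
    rw [Function.update_self, Function.update_self]
  · rw [Function.update_of_ne h, Function.update_of_ne h]

theorem st_ST2 : S_ST2 := by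
  intro n U ζ a i hU hζ ha hc hs hcl
  have hcomp : ∀ p q, ContDiffOn ℝ ∞ (c2 ζ p q) U := fun p q =>
    (ContinuousAlternatingMap.apply ℝ (E (n + 2)) ℝ ![eb p, eb q]).contDiff.comp_contDiffOn hζ
  have hz : ∀ p q, tsupport (fun x => c2 ζ p q x * a i x) ⊆ tsupport (a i) := by
    intro p q
    refine closure_mono fun x hx => ?_
    rw [Function.mem_support] at hx ⊢
    intro h0
    apply hx
    rw [h0, mul_zero]
  have hcb : ∀ p q, HasCompactSupport (fun x => c2 ζ p q x * a i x) := fun p q =>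
    hc.isCompact.of_isClosed_subset (isClosed_tsupport _) (hz p q)
  have hself : ∀ p q, fam (fun x => co p x) (fun x => co q x)
      (Function.update a i (fun x => c2 ζ p q x * a i x)) i.succ.succ
      = fun x => c2 ζ p q x * a i x := by
    intro p q
    unfold fam
    rw [Fin.cons_succ, Fin.cons_succ, Function.update_self]
  have hNL : ∀ p q : Fin (n + 2),
      Integrable (fun x => DD (n + 2) (fun k =>
        fderiv ℝ (fam (fun x => co p x) (fun x => co q x)
          (Function.update a i (fun x => c2 ζ p q x * a i x)) k) x)) ∧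
      ∫ x, DD (n + 2) (fun k =>
        fderiv ℝ (fam (fun x => co p x) (fun x => co q x)
          (Function.update a i (fun x => c2 ζ p q x * a i x)) k) x) = 0 := by
    intro p q
    refine NL_DD hU _ i.succ.succ (fam_all (P := fun f => ContDiffOn ℝ ∞ f U)
      (co p : E (n + 2) →L[ℝ] ℝ).contDiff.contDiffOn
      (co q : E (n + 2) →L[ℝ] ℝ).contDiff.contDiffOn ?_) ?_ ?_
    · intro j
      by_cases h : j = i
      · subst h
        rw [Function.update_self]
        exact (hcomp p q).mul (ha j)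
      · rw [Function.update_of_ne h]
        exact ha j
    · rw [hself]
      exact hcb p q
    · rw [hself]
      exact (hz p q).trans hs
  have hpt : ∀ x, Om (ζ x) (fun j => fderiv ℝ (a j) x) eb
      = ∑ p : Fin (n + 2), ∑ q : Fin (n + 2), DD (n + 2) (fun k =>
        fderiv ℝ (fam (fun x => co p x) (fun x => co q x)
          (Function.update a i (fun x => c2 ζ p q x * a i x)) k) x) := by
    intro x
    have hfam : ∀ p q : Fin (n + 2), DD (n + 2) (fun k =>
        fderiv ℝ (fam (fun x => co p x) (fun x => co q x)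
          (Function.update a i (fun x => c2 ζ p q x * a i x)) k) x)
        = DR i (co p) (co q) (fun j => fderiv ℝ (a j) x)
          (fderiv ℝ (fun x => c2 ζ p q x * a i x) x) := by
      intro p q
      rw [fam_fderiv, fderiv_co, fderiv_co, upd_fderiv, ← DR_apply]
    simp only [hfam]
    rw [Om_DD]
    have hD0 : ∀ p q : Fin (n + 2),
        DD (n + 2) (Fin.cons (co p) (Fin.cons (co q) (fun j => fderiv ℝ (a j) x)))
        = DR i (co p) (co q) (fun j => fderiv ℝ (a j) x) (fderiv ℝ (a i) x) := by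
      intro p q
      have h := DR_apply i (co p) (co q) (fun j => fderiv ℝ (a j) x) (fderiv ℝ (a i) x)
      have h' : Function.update (fun j => fderiv ℝ (a j) x) i (fderiv ℝ (a i) x)
          = fun j => fderiv ℝ (a j) x := Function.update_eq_self i _
      rw [h, h']
    simp only [hD0]
    by_cases hx : x ∈ tsupport (a i)
    · have hxU := hs hx
      have hζx : DifferentiableAt ℝ ζ x :=
        (hζ.contDiffAt (hU.mem_nhds hxU)).differentiableAt (by simp)
      have h1 : ∀ p q, fderiv ℝ (fun x => c2 ζ p q x * a i x) x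
          = c2 ζ p q x • fderiv ℝ (a i) x + a i x • fderiv ℝ (c2 ζ p q) x := fun p q =>
        fderiv_fun_mul (((hcomp p q).contDiffAt (hU.mem_nhds hxU)).differentiableAt (by simp))
          (((ha i).contDiffAt (hU.mem_nhds hxU)).differentiableAt (by simp))
      have h2 : ∑ p, ∑ q, DR i (co p) (co q) (fun j => fderiv ℝ (a j) x)
          (fderiv ℝ (fun x => c2 ζ p q x * a i x) x)
          = ∑ p, ∑ q, c2 ζ p q x * DR i (co p) (co q) (fun j => fderiv ℝ (a j) x)
            (fderiv ℝ (a i) x)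
          + a i x * ∑ p, ∑ q, DR i (co p) (co q) (fun j => fderiv ℝ (a j) x)
            (fderiv ℝ (c2 ζ p q) x) := by
        rw [Finset.mul_sum, ← Finset.sum_add_distrib]
        refine Finset.sum_congr rfl fun p _ => ?_
        rw [Finset.mul_sum, ← Finset.sum_add_distrib]
        refine Finset.sum_congr rfl fun q _ => ?_
        rw [h1, map_add, map_smul, map_smul, smul_eq_mul, smul_eq_mul]
      rw [h2, closed_sum hζx (hcl x hx) i, mul_zero, add_zero]
      rfl
    · rw [fderiv_zero_of hx]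
      have h1 : ∀ p q, fderiv ℝ (fun x => c2 ζ p q x * a i x) x = 0 := fun p q =>
        fderiv_zero_of (fun h => hx (hz p q h))
      simp only [h1, map_zero, mul_zero]
  simp only [hpt]
  rw [integral_finsetSum _ fun p _ => integrable_finsetSum _ fun q _ => (hNL p q).1]
  refine Finset.sum_eq_zero fun p _ => ?_
  rw [integral_finsetSum _ fun q _ => (hNL p q).1]
  exact Finset.sum_eq_zero fun q _ => (hNL p q).2

end Pool.Agent.L7h76.OF
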